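import Mathlib
import Pool.Agent.H9.Alzer

namespace Pool.Agent.Results.MP_be8317_an.Alzer

variable {H : Type} [NormedAddCommGroup H] [InnerProductSpace ℂ H] [CompleteSpace H]

/-- `Φ_{1/m}(X,Y) = Y^{1/2} (Y^{-1/2} X Y^{-1/2})^{1/m} Y^{1/2}` (real powers by the continuous
functional calculus). -/
noncomputable def Phi (m : ℕ) (X Y : H →L[ℂ] H) : H →L[ℂ] H :=
  Y ^ (1 / 2 : ℝ) * (Y ^ (-(1 / 2) : ℝ) * X * Y ^ (-(1 / 2) : ℝ)) ^ (1 / m : ℝ) * Y ^ (1 / 2 : ℝ)

/-- The recursively defined geometric operator mean of a list `X₁, ..., X_m`. -/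
noncomputable def G : List (H →L[ℂ] H) → (H →L[ℂ] H)
  | [] => 1
  | [X] => X
  | X :: Y :: l => Phi (l.length + 2) X (G (Y :: l))

/-- The arithmetic mean. -/
noncomputable def Ar {n : ℕ} (X : Fin n → H →L[ℂ] H) : H →L[ℂ] H := (1 / n : ℝ) • ∑ j, X j

open Pool.Agent.H9.Alzer in
lemma main (l : List (H →L[ℂ] H)) : ∀ a : H →L[ℂ] H,
    (∀ x ∈ a :: l, IsStrictlyPositive x ∧ x ≤ (1 / 2 : ℝ) • 1) →
    IsStrictlyPositive (G (a :: l)) ∧ IsStrictlyPositive (G ((a :: l).map fun x => 1 - x)) ∧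
      Refl (G ((a :: l).map fun x => 1 - x)) (G (a :: l))
        (1 - (2 / (l.length + 1) : ℝ) • (a :: l).sum) := by
  have h2 : ∀ x : H →L[ℂ] H, x ≤ (1 / 2 : ℝ) • 1 → 0 ≤ 1 - (2 : ℝ) • x := by
    intro x hx
    have := smul_le_smul_of_nonneg_left hx (show (0 : ℝ) ≤ 2 by norm_num)
    rw [smul_smul] at this
    norm_num at this
    exact sub_nonneg.2 this
  have h3 : ∀ x : H →L[ℂ] H, IsStrictlyPositive x → x ≤ (1 / 2 : ℝ) • 1 →
      IsStrictlyPositive (1 - x) := by
    intro x h0 hx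
    have := IsStrictlyPositive.nonneg_add (h2 x hx) h0
    have e : 1 - (2 : ℝ) • x + x = 1 - x := by rw [two_smul]; abel
    rwa [e] at this
  induction l with
  | nil =>
    intro a h
    obtain ⟨h0, h1⟩ := h a (by simp)
    refine ⟨h0, h3 a h0 h1, ?_⟩
    simpa [G] using base a (h2 a h1)
  | cons b l ih =>
    intro a h
    obtain ⟨h0, h1⟩ := h a (by simp)
    obtain ⟨i1, i2, i3⟩ := ih b fun x hx => h x (List.mem_cons_of_mem _ hx)
    have e1 : G (a :: b :: l) = Pool.Agent.H9.Alzer.Phi (1 / ((l.length + 2 : ℕ) : ℝ)) a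
      (G (b :: l)) := rfl
    have e2 : G ((a :: b :: l).map fun x => 1 - x) =
        Pool.Agent.H9.Alzer.Phi (1 / ((l.length + 2 : ℕ) : ℝ)) (1 - a)
          (G ((b :: l).map fun x => 1 - x)) := by
      simp only [List.map_cons, G, List.length_map]
      rfl
    rw [e1, e2]
    refine ⟨Phi_pos _ h0 i1, Phi_pos _ (h3 a h0 h1) i2, ?_⟩
    have hp : (1 / ((l.length + 2 : ℕ) : ℝ)) ∈ Set.Ioo (0 : ℝ) 1 := by
      have : (0 : ℝ) ≤ l.length := by positivity
      push_cast
      constructor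
      · positivity
      · rw [div_lt_one (by positivity)]; linarith
    have := step hp i3 (base a (h2 a h1)) i2 i1 (h3 a h0 h1) h0
    convert this using 1
    have : (0 : ℝ) ≤ l.length := by positivity
    rw [List.sum_cons (a := a), List.length_cons]
    push_cast
    match_scalars <;> field_simp <;> ring

theorem result (H : Type) [NormedAddCommGroup H] [InnerProductSpace ℂ H] [CompleteSpace H]
    (n : ℕ) (hn : 2 ≤ n) (A : Fin n → H →L[ℂ] H)
    (hpos : ∀ j, (A j).IsPositive ∧ IsUnit (A j))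
    (hle : ∀ j, ((1 / 2 : ℝ) • (1 : H →L[ℂ] H) - A j).IsPositive) :
    ((Ar A - G (List.ofFn A)) -
      (Ar (fun j => 1 - A j) - G (List.ofFn fun j => 1 - A j))).IsPositive := by
  obtain ⟨m, rfl⟩ : ∃ m, n = m + 1 := ⟨n - 1, by omega⟩
  have h := (main (List.ofFn fun j : Fin m => A j.succ) (A 0) ?_).2.2 0
  · rw [← List.ofFn_succ, List.map_ofFn, List.sum_ofFn, List.length_ofFn] at h
    simp only [star_zero, add_zero, zero_add, sub_zero, star_one, one_mul, mul_one] at h
    rw [← sub_nonneg, ContinuousLinearMap.nonneg_iff_isPositive] at h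
    convert h using 1
    have e : (fun j => 1 - A j) = (fun x => 1 - x) ∘ A := rfl
    rw [← e]
    simp only [Ar, Finset.sum_sub_distrib, Finset.sum_const, Finset.card_univ, Fintype.card_fin]
    rw [← Nat.cast_smul_eq_nsmul ℝ]
    have : (0 : ℝ) ≤ m := by positivity
    push_cast
    match_scalars <;> field_simp <;> ring
  · rw [← List.ofFn_succ]
    intro x hx
    obtain ⟨j, rfl⟩ := (List.mem_ofFn' _ _).1 hx
    exact ⟨⟨(ContinuousLinearMap.nonneg_iff_isPositive _).2 (hpos j).1, (hpos j).2⟩,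
      (ContinuousLinearMap.le_def _ _).2 (hle j)⟩

end Pool.Agent.Results.MP_be8317_an.Alzer
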